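import Pool.Agent.H523R2.Corner.Codes

/-!
A faster test for peeling certificates: the positions of the cells in the peeling order are stored
in a table.
-/

set_option autoImplicit false

namespace Pool.Agent.L0h99.CF

open Pool.Agent.H523R2.Corner Finset

/-- Is the cell `(x, y)` either absent or at most at position `s`? (`ix` gives the position plus one, or
zero for the absent cells.) -/
def low (k : ℕ) (ix : ℕ → ℕ) (s x y : ℕ) : Bool := decide (ix (x * 2 ^ k + y) ≤ s + 1)

/-- test of one cell in one direction -/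
def tst (k : ℕ) (ix : ℕ → ℕ) (s x y c z : ℕ) : Bool :=
  decide (z = 0) ||
  (if c = 0 then low k ix s x (y ^^^ z) || low k ix s (x ^^^ z) y
   else if c = 1 then low k ix s x (y ^^^ z) || low k ix s (x ^^^ z) (y ^^^ z)
   else low k ix s (x ^^^ z) y || low k ix s (x ^^^ z) (y ^^^ z))

/-- Boolean test of a peeling certificate -/
def fast (k m : ℕ) (xc yc ce ix : ℕ → ℕ) : Bool :=
  (List.range m).all (fun s =>
    decide (xc s < 2 ^ k) && decide (yc s < 2 ^ k) && decide (ce s < 3) &&
    decide (ix (xc s * 2 ^ k + yc s) = s + 1) &&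
    (List.range (2 ^ k)).all (fun z => tst k ix s (xc s) (yc s) (ce s) z))

theorem main_fast {k m D p q : ℕ} (xc yc ce ix : ℕ → ℕ) (an bn cn : ℕ → ℕ)
    (hD : 0 < D) (hp : 0 < p) (hq : 0 < q) (hchk : fast k m xc yc ce ix = true)
    (ha : ∑ x : Fin k → ZMod 2, an (idx x) ^ p ≤ D ^ p)
    (hb : ∑ x : Fin k → ZMod 2, bn (idx x) ^ p ≤ D ^ p)
    (hc : ∑ x : Fin k → ZMod 2, cn (idx x) ^ p ≤ D ^ p)
    (hC : D ^ (3 * q) < ∑ s : Fin m, (an (idx (bits k (xc s))) * bn (idx (bits k (yc s)))
      * cn (idx (bits k (xc s ^^^ yc s)))) ^ q) :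
    ∃ n0 : ℕ, ∀ n : ℕ, n0 ≤ n → ∃ S : Finset ((Fin n → ZMod 2) × (Fin n → ZMod 2)),
      CornerFree S ∧ 2 ^ (3 * q * n) ≤ S.card ^ p := by
  simp only [fast, List.all_eq_true, List.mem_range, Bool.and_eq_true, decide_eq_true_eq] at hchk
  have hx : ∀ s < m, xc s < 2 ^ k := fun s hs => (hchk s hs).1.1.1.1
  have hy : ∀ s < m, yc s < 2 ^ k := fun s hs => (hchk s hs).1.1.1.2
  have hce : ∀ s < m, ce s < 3 := fun s hs => (hchk s hs).1.1.2
  have hix : ∀ s < m, ix (xc s * 2 ^ k + yc s) = s + 1 := fun s hs => (hchk s hs).1.2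
  have ht : ∀ s < m, ∀ z < 2 ^ k, tst k ix s (xc s) (yc s) (ce s) z = true :=
    fun s hs z hz => (hchk s hs).2 z hz
  have hinj : ∀ s < m, ∀ t < m, xc s = xc t → yc s = yc t → s = t := by
    intro s hs t ht h1 h2
    have h3 := hix s hs
    have h4 := hix t ht
    rw [h1, h2, h4] at h3
    omega
  refine main_codes xc yc ce an bn cn hD hp hq hx hy hinj ?_ ?_ ?_ hce ha hb hc hC
  · intro a ha h0 b hb hab hX c hc hac hY hZ
    have hz : yc a ^^^ yc b < 2 ^ k := Nat.xor_lt_two_pow (hy a ha) (hy b hb)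
    have h := ht a ha _ hz
    have e1 : yc a ^^^ (yc a ^^^ yc b) = yc b := by
      rw [← Nat.xor_assoc, Nat.xor_self, Nat.zero_xor]
    have e2 : xc a ^^^ (yc a ^^^ yc b) = xc c := by
      have h5 : xc c = xc b ^^^ yc b ^^^ yc c := by
        rw [hZ, Nat.xor_assoc, Nat.xor_self, Nat.xor_zero]
      rw [h5, hX, ← hY, Nat.xor_comm (yc a) (yc b), Nat.xor_assoc]
    simp only [tst, if_pos h0, e1, e2, Bool.or_eq_true, decide_eq_true_eq, low] at h
    rcases h with h | h | h
    · have : yc a = yc b := by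
        have := congrArg (yc a ^^^ ·) h
        simp only [e1, Nat.xor_zero] at this
        exact this.symm
      exact absurd (hinj a ha b hb hX this) (by omega)
    · rw [hX, hix b hb] at h
      omega
    · rw [hY, hix c hc] at h
      omega
  · intro b hb h1 a ha hba hX c hc hbc hY hZ
    have hz : yc b ^^^ yc a < 2 ^ k := Nat.xor_lt_two_pow (hy b hb) (hy a ha)
    have h := ht b hb _ hz
    have e1 : yc b ^^^ (yc b ^^^ yc a) = yc a := by
      rw [← Nat.xor_assoc, Nat.xor_self, Nat.zero_xor]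
    have e2 : xc b ^^^ (yc b ^^^ yc a) = xc c := by
      have h5 : xc c = xc b ^^^ yc b ^^^ yc c := by
        rw [hZ, Nat.xor_assoc, Nat.xor_self, Nat.xor_zero]
      rw [h5, ← hY, Nat.xor_assoc]
    have hn0 : ¬ ce b = 0 := by omega
    simp only [tst, if_neg hn0, if_pos h1, e1, e2, Bool.or_eq_true, decide_eq_true_eq, low] at h
    rcases h with h | h | h
    · have : yc b = yc a := by
        have := congrArg (yc b ^^^ ·) h
        simp only [e1, Nat.xor_zero] at this
        exact this.symm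
      exact absurd (hinj b hb a ha hX.symm this) (by omega)
    · rw [← hX, hix a ha] at h
      omega
    · rw [hY, hix c hc] at h
      omega
  · intro c hc h2 a ha hca hY b hb hcb hX hZ
    have hz : xc c ^^^ xc a < 2 ^ k := Nat.xor_lt_two_pow (hx c hc) (hx a ha)
    have h := ht c hc _ hz
    have e1 : xc c ^^^ (xc c ^^^ xc a) = xc a := by
      rw [← Nat.xor_assoc, Nat.xor_self, Nat.zero_xor]
    have e2 : yc c ^^^ (xc c ^^^ xc a) = yc b := by
      have h5 : yc b = xc b ^^^ (xc c ^^^ yc c) := by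
        rw [← hZ, ← Nat.xor_assoc, Nat.xor_self, Nat.zero_xor]
      rw [h5, ← hX, ← Nat.xor_assoc, Nat.xor_comm (yc c) (xc c), Nat.xor_comm]
    have hn0 : ¬ ce c = 0 := by omega
    have hn1 : ¬ ce c = 1 := by omega
    simp only [tst, if_neg hn0, if_neg hn1, e1, e2, Bool.or_eq_true, decide_eq_true_eq, low] at h
    rcases h with h | h | h
    · have : xc c = xc a := by
        have := congrArg (xc c ^^^ ·) h
        simp only [e1, Nat.xor_zero] at this
        exact this.symm
      exact absurd (hinj c hc a ha this hY.symm) (by omega)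
    · rw [← hY, hix a ha] at h
      omega
    · rw [hX, hix b hb] at h
      omega

end Pool.Agent.L0h99.CF
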