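import Pool.Agent.N68.Corner.Cover
import Pool.Agent.H523R2.Corner.Basic

/-!
From large corner-free sets to coverings by few corner-free sets.
-/

set_option autoImplicit false

namespace Pool.Agent.L0h99.CF

open Finset Filter Topology

/-- `A ⊆ F_2^n × F_2^n` contains no nontrivial corner `(x,y), (x,y+z), (x+z,y)`, `z ≠ 0`. -/
def NoCorner {n : ℕ} (A : Finset ((Fin n → ZMod 2) × (Fin n → ZMod 2))) : Prop :=
  ∀ x y z : Fin n → ZMod 2, z ≠ 0 → ¬ ((x, y) ∈ A ∧ (x, y + z) ∈ A ∧ (x + z, y) ∈ A)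

/-- growth rate `B` of corner-free sets gives coverings by `(4/B')^n` corner-free sets, `B' < B` -/
theorem cover_of_growth (B B' : ℝ) (h1 : 1 < B') (hBB : B' < B) (hB4 : B ≤ 4)
    (h : ∃ n0 : ℕ, ∀ n : ℕ, n0 ≤ n → ∃ A : Finset ((Fin n → ZMod 2) × (Fin n → ZMod 2)),
      NoCorner A ∧ B ^ n ≤ (A.card : ℝ)) :
    ∃ n0 : ℕ, ∀ n : ℕ, n0 ≤ n →
      ∃ 𝒜 : Finset (Finset ((Fin n → ZMod 2) × (Fin n → ZMod 2))),
        (∀ A ∈ 𝒜, NoCorner A) ∧ (𝒜.card : ℝ) ≤ (4 / B') ^ n ∧ (∀ p, ∃ A ∈ 𝒜, p ∈ A) ∧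
          ∃ A ∈ 𝒜, B' ^ n ≤ (A.card : ℝ) := by
  classical
  obtain ⟨n1, h2⟩ := h
  have hB'0 : 0 < B' := by linarith
  have hB0 : 0 < B := by linarith
  have hr1 : |B' / B| < 1 := by
    rw [abs_of_nonneg (by positivity), div_lt_one hB0]
    exact hBB
  have hr2 : |B' / 4| < 1 := by
    rw [abs_of_nonneg (by positivity), div_lt_one (by norm_num)]
    linarith
  have hl1 := tendsto_pow_const_mul_const_pow_of_abs_lt_one 1 hr1
  have hl2 := tendsto_pow_const_mul_const_pow_of_abs_lt_one 0 hr2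
  have e1 := hl1.eventually (gt_mem_nhds (show (0 : ℝ) < 1 / 4 by norm_num))
  have e2 := hl2.eventually (gt_mem_nhds (show (0 : ℝ) < 1 / 4 by norm_num))
  obtain ⟨n2, hn2⟩ := eventually_atTop.1 (e1.and e2)
  refine ⟨max n1 n2, fun n hn => ?_⟩
  obtain ⟨A, hA, hAc⟩ := h2 n ((le_max_left _ _).trans hn)
  obtain ⟨a1, a2⟩ := hn2 n ((le_max_right _ _).trans hn)
  rw [pow_one] at a1
  rw [pow_zero, one_mul] at a2
  have hHc : (Fintype.card ((Fin n → ZMod 2) × (Fin n → ZMod 2)) : ℝ) = (4 : ℝ) ^ n := by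
    rw [Fintype.card_prod, Fintype.card_fun, ZMod.card, Fintype.card_fin]
    push_cast
    rw [← mul_pow]
    norm_num
  have hA0 : (0 : ℝ) < A.card := lt_of_lt_of_le (by positivity) hAc
  obtain ⟨k, t, ht, hk⟩ := Pool.Agent.N68.Corner.cover_real A (by exact_mod_cast hA0)
  rw [hHc] at hk
  have hcf : Pool.Agent.N68.Corner.CornerFree A := by
    intro x y z h3 h4 h5
    by_contra hz
    exact hA x y z hz ⟨h3, h4, h5⟩
  refine ⟨univ.image (fun i => A.image (fun p => p + t i)), ?_, ?_, ?_, ?_⟩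
  · intro A' hA'
    obtain ⟨i, _, rfl⟩ := mem_image.1 hA'
    intro x y z hz h3
    exact hz (hcf.translate (t i) x y z h3.1 h3.2.1 h3.2.2)
  · have h3 : ((univ.image (fun i => A.image (fun p => p + t i))).card : ℝ) ≤ k := by
      have := card_image_le (s := (univ : Finset (Fin k))) (f := fun i => A.image (fun p => p + t i))
      rw [card_univ, Fintype.card_fin] at this
      exact_mod_cast this
    refine h3.trans (hk.trans ?_)
    have h4 : (4 : ℝ) ^ n / A.card ≤ (4 / B) ^ n := by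
      rw [div_pow]
      exact div_le_div_of_nonneg_left (by positivity) (by positivity) hAc
    have hlog : Real.log ((4 : ℝ) ^ n) ≤ 2 * n := by
      rw [Real.log_pow, show (4 : ℝ) = 2 ^ 2 by norm_num, Real.log_pow]
      have := Real.log_two_lt_d9
      have hn0 : (0 : ℝ) ≤ n := Nat.cast_nonneg n
      push_cast
      nlinarith
    have hlog0 : 0 ≤ Real.log ((4 : ℝ) ^ n) := Real.log_nonneg (one_le_pow₀ (by norm_num))
    have h5 : (4 / B' : ℝ) ^ n * (B' / B) ^ n = (4 / B) ^ n := by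
      rw [← mul_pow]
      congr 1
      field_simp
    have h6 : (4 / B' : ℝ) ^ n * (B' / 4) ^ n = 1 := by
      rw [← mul_pow, div_mul_div_comm, mul_comm, div_self (by positivity), one_pow]
    have hp : (0 : ℝ) < (4 / B') ^ n := by positivity
    calc Real.log ((4 : ℝ) ^ n) * ((4 : ℝ) ^ n / A.card) + 1
        ≤ 2 * n * (4 / B) ^ n + 1 := by
          gcongr
      _ = (4 / B') ^ n * (2 * (n * (B' / B) ^ n) + (B' / 4) ^ n) := by
          rw [mul_add, h6, ← h5]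
          ring
      _ ≤ (4 / B') ^ n * 1 := by
          apply mul_le_mul_of_nonneg_left _ hp.le
          linarith
      _ = (4 / B') ^ n := mul_one _
  · intro p
    obtain ⟨i, hi⟩ := ht p
    refine ⟨A.image (fun p => p + t i), mem_image_of_mem _ (mem_univ i), ?_⟩
    exact mem_image.2 ⟨p - t i, hi, by rw [sub_add_cancel]⟩
  · obtain ⟨i, _⟩ := ht 0
    refine ⟨A.image (fun p => p + t i), mem_image_of_mem _ (mem_univ i), ?_⟩
    rw [card_image_of_injective _ (add_left_injective (t i))]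
    exact (pow_le_pow_left₀ hB'0.le hBB.le n).trans hAc

/-- growth from a certificate `2^(3 q n) ≤ |A|^p` -/
theorem growth_of_cert (p q : ℕ) (hp : 0 < p) (B : ℝ) (hB : 0 ≤ B) (hBp : B ^ p ≤ 2 ^ (3 * q))
    (h : ∃ n0 : ℕ, ∀ n : ℕ, n0 ≤ n → ∃ S : Finset ((Fin n → ZMod 2) × (Fin n → ZMod 2)),
      Pool.Agent.H523R2.Corner.CornerFree S ∧ 2 ^ (3 * q * n) ≤ S.card ^ p) :
    ∃ n0 : ℕ, ∀ n : ℕ, n0 ≤ n → ∃ A : Finset ((Fin n → ZMod 2) × (Fin n → ZMod 2)),
      NoCorner A ∧ B ^ n ≤ (A.card : ℝ) := by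
  obtain ⟨n0, h⟩ := h
  refine ⟨n0, fun n hn => ?_⟩
  obtain ⟨A, hA, hc⟩ := h n hn
  refine ⟨A, hA, ?_⟩
  have h1 : (2 : ℝ) ^ (3 * q * n) ≤ (A.card : ℝ) ^ p := by exact_mod_cast hc
  have h2 : (B ^ n) ^ p ≤ (2 : ℝ) ^ (3 * q * n) := by
    rw [← pow_mul, mul_comm n p, pow_mul, pow_mul (2 : ℝ) (3 * q) n]
    exact pow_le_pow_left₀ (by positivity) hBp n
  exact le_of_pow_le_pow_left₀ hp.ne' (by positivity) (h2.trans h1)

/-- the consequence for power-saving bounds -/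
theorem saving_of_growth (B : ℝ) (hB : 1 < B)
    (h : ∃ n0 : ℕ, ∀ n : ℕ, n0 ≤ n → ∃ A : Finset ((Fin n → ZMod 2) × (Fin n → ZMod 2)),
      NoCorner A ∧ B ^ n ≤ (A.card : ℝ)) (C c : ℝ)
    (hs : ∀ n : ℕ, 1 ≤ n → ∀ A : Finset ((Fin n → ZMod 2) × (Fin n → ZMod 2)), NoCorner A →
      (A.card : ℝ) ≤ C * (4 : ℝ) ^ ((1 - c) * n)) : B ≤ (4 : ℝ) ^ (1 - c) := by
  obtain ⟨n0, hn0⟩ := h
  by_contra hcon
  push Not at hcon
  set E : ℝ := (4 : ℝ) ^ (1 - c) with hE
  have hE0 : 0 < E := by positivity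
  have hlim := tendsto_pow_atTop_atTop_of_one_lt (show 1 < B / E by rwa [one_lt_div hE0])
  obtain ⟨n1, hn1⟩ := eventually_atTop.1 (hlim.eventually (eventually_gt_atTop C))
  set n := max (max n0 n1) 1 with hn
  obtain ⟨A, hA, hAc⟩ := hn0 n ((le_max_left _ _).trans (le_max_left _ _))
  have h1 := hs n (le_max_right _ _) A hA
  have h2 := hn1 n ((le_max_right _ _).trans (le_max_left _ _))
  rw [div_pow, lt_div_iff₀ (by positivity)] at h2
  have h3 : (4 : ℝ) ^ ((1 - c) * (n : ℝ)) = E ^ n := by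
    rw [hE, Real.rpow_mul (by positivity), Real.rpow_natCast]
  rw [h3] at h1
  linarith

end Pool.Agent.L0h99.CF
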